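import Pool.Agent.Helper72.LGI.Defs
import Pool.Agent.Helper72.LGS.Count

/-!
# Counting the values of groups with operators
-/

set_option autoImplicit false

namespace Pool.Agent.Helper72.LGI

open Subgroup Finset Pool.Agent.Helper72.LG Pool.Agent.Helper72.LGS

lemma mem_inv {Q : Type*} [Group Q] [Finite Q] {h : ℕ} {a : Fin h → MulAut Q} {L H : Subgroup Q} :
    H ∈ inv a L ↔ (∀ j, H.map (a j).toMonoidHom = H) ∧ H ≤ L := by
  unfold inv
  rw [Set.Finite.mem_toFinset]
  rfl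

lemma VO_restrict {Q : Type*} [Group Q] [Finite Q] (S : Finset ℕ) {h : ℕ} (a : Fin h → MulAut Q)
    (c : ℕ) (K K' : ℕ → Subgroup Q) (b b' : ℕ → Bool) (L : Subgroup Q) (bL : Bool)
    (hK : ∀ p ∈ S, K p = K' p) (hb : ∀ p ∈ S, b p = b' p) :
    VO Q S a c K b L bL = VO Q S a c K' b' L bL := by
  classical
  unfold VO
  by_cases hbL : bL = true
  · rw [if_pos hbL, if_pos hbL]
    refine sum_congr rfl fun H _ => ?_
    congr 1
    exact prod_congr rfl fun p hp => by rw [hK p hp, hb p hp]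
  · rw [if_neg hbL, if_neg hbL]

/-- the transported automorphism -/
def tr {Q Q' : Type*} [Group Q] [Group Q'] (φ : Q ≃* Q') (a : MulAut Q) : MulAut Q' :=
  (φ.symm.trans a).trans φ

lemma tr_comp {Q Q' : Type*} [Group Q] [Group Q'] (φ : Q ≃* Q') (a : MulAut Q) :
    (tr φ a).toMonoidHom.comp φ.toMonoidHom = φ.toMonoidHom.comp a.toMonoidHom := by
  ext x
  simp [tr]

lemma tr_map {Q Q' : Type*} [Group Q] [Group Q'] (φ : Q ≃* Q') (a : MulAut Q) (H : Subgroup Q) :
    (H.map φ.toMonoidHom).map (tr φ a).toMonoidHom = (H.map a.toMonoidHom).map φ.toMonoidHom := by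
  rw [Subgroup.map_map, Subgroup.map_map, tr_comp]

theorem VO_map {Q Q' : Type*} [Group Q] [Finite Q] [Group Q'] [Finite Q'] (φ : Q ≃* Q')
    (S : Finset ℕ) {h : ℕ} (a : Fin h → MulAut Q) (c : ℕ) (K : ℕ → Subgroup Q) (b : ℕ → Bool)
    (L : Subgroup Q) (bL : Bool) :
    VO Q S a c K b L bL = VO Q' S (fun j => tr φ (a j)) c (fun p => (K p).map φ.toMonoidHom) b
      (L.map φ.toMonoidHom) bL := by
  classical
  have hinj : Function.Injective φ.toMonoidHom := φ.injective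
  have hsurj : Function.Surjective φ.toMonoidHom := φ.surjective
  unfold VO
  by_cases hbL : bL = true
  · rw [if_pos hbL, if_pos hbL]
    refine Finset.sum_bij (fun H _ => H.map φ.toMonoidHom) ?_ ?_ ?_ ?_
    · intro H hH
      rw [mem_inv] at hH ⊢
      refine ⟨fun j => ?_, Subgroup.map_mono hH.2⟩
      rw [tr_map, hH.1 j]
    · intro H _ H' _ heq
      exact Subgroup.map_injective hinj heq
    · intro J hJ
      have hJm : (J.comap φ.toMonoidHom).map φ.toMonoidHom = J :=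
        Subgroup.map_comap_eq_self_of_surjective hsurj J
      refine ⟨J.comap φ.toMonoidHom, ?_, hJm⟩
      rw [mem_inv] at hJ ⊢
      refine ⟨fun j => ?_, ?_⟩
      · apply Subgroup.map_injective hinj
        have h1 := hJ.1 j
        rw [← hJm, tr_map] at h1
        exact h1
      · rw [← Subgroup.map_le_map_iff_of_injective hinj, hJm]
        exact hJ.2
    · intro H _
      have h1 : Nat.card (H.map φ.toMonoidHom) = Nat.card H :=
        Nat.card_congr (H.equivMapOfInjective φ.toMonoidHom hinj).toEquiv.symm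
      rw [h1]
      congr 1
      refine prod_congr rfl fun p _ => ?_
      simp only [Subgroup.map_le_map_iff_of_injective hinj]
  · rw [if_neg hbL, if_neg hbL]

theorem VO_congr {Q Q' : Type*} [Group Q] [Finite Q] [Group Q'] [Finite Q'] (φ : Q ≃* Q')
    (S : Finset ℕ) {h : ℕ} (a : Fin h → MulAut Q) (c : ℕ) (K : ℕ → Subgroup Q) (b : ℕ → Bool)
    (L : Subgroup Q) (bL : Bool) :
    ∃ (a' : Fin h → MulAut Q') (K' : ℕ → Subgroup Q') (L' : Subgroup Q'),
      VO Q S a c K b L bL = VO Q' S a' c K' b L' bL :=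
  ⟨_, _, _, VO_map φ S a c K b L bL⟩

theorem card_mulAut_le {Q : Type*} [Group Q] [Finite Q] {Kb : ℕ} (h : Nat.card Q ≤ Kb) :
    Nat.card (MulAut Q) ≤ Kb ^ Nat.log 2 Kb := by
  have h0 : 0 < Nat.card Q := Nat.card_pos
  set k := Nat.log 2 (Nat.card Q) with hk
  obtain ⟨f, hf⟩ := _root_.LG.exists_gen k (⊤ : Subgroup Q) (by
    rw [Subgroup.card_top]
    exact Nat.lt_pow_succ_log_self (b := 2) (by norm_num) (Nat.card Q))
  have hinj : Function.Injective (fun (φ : MulAut Q) (i : Fin k) => φ (f i)) := by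
    intro φ ψ hφψ
    have h1 : φ.toMonoidHom = ψ.toMonoidHom := by
      refine MonoidHom.eq_of_eqOn_dense hf ?_
      rintro _ ⟨i, rfl⟩
      exact congrFun hφψ i
    ext x
    exact DFunLike.congr_fun h1 x
  have h1 := Nat.card_le_card_of_injective _ hinj
  rw [Nat.card_fun, Nat.card_eq_fintype_card (α := Fin k), Fintype.card_fin] at h1
  refine h1.trans ?_
  exact (Nat.pow_le_pow_left h _).trans (Nat.pow_le_pow_right (lt_of_lt_of_le h0 h)
    (Nat.log_mono_right h))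

/-- the possible values -/
def VSO (M Kb h : ℕ) (S : Finset ℕ) : Set ℕ :=
  {v | ∃ (Q : Type) (_ : Group Q) (_ : Finite Q) (a : Fin h → MulAut Q) (c : ℕ)
    (K : ℕ → Subgroup Q) (b : ℕ → Bool) (L : Subgroup Q) (bL : Bool),
      Nat.card Q ≤ Kb ∧ Ser M Q ∧ c ≤ Kb ∧ v = VO Q S a c K b L bL}

theorem VSO_bound {M Kb TB : ℕ} (h : ℕ) (hT : Types M Kb TB) (S : Finset ℕ) :
    ∃ A : Finset ℕ, A.card ≤ TB * ((Kb ^ Nat.log 2 Kb) ^ h * (Kb + 1) *
      (Kb ^ Nat.log 2 Kb) ^ (S.card + 1) * 2 ^ (S.card + 1)) ∧ VSO M Kb h S ⊆ A := by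
  classical
  obtain ⟨T, hTfin, code, hTB, hcode⟩ := hT
  have hc : ∀ c : T, ∃ A : Finset ℕ, A.card ≤ (Kb ^ Nat.log 2 Kb) ^ h * (Kb + 1) *
      (Kb ^ Nat.log 2 Kb) ^ (S.card + 1) * 2 ^ (S.card + 1) ∧
      ∀ (Q : Type) (iQ : Group Q) (_ : Finite Q) (a : Fin h → MulAut Q) (c' : ℕ)
        (K : ℕ → Subgroup Q) (b : ℕ → Bool) (L : Subgroup Q) (bL : Bool),
        Nat.card Q ≤ Kb → Ser M Q → c' ≤ Kb → code Q iQ = c → VO Q S a c' K b L bL ∈ A := by
    intro c
    by_cases hex : ∃ (X : Type) (iX : Group X), Finite X ∧ Nat.card X ≤ Kb ∧ Ser M X ∧ code X iX = c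
    · obtain ⟨X₀, iX₀, hf₀, hk₀, hs₀, hc₀⟩ := hex
      let D := (((Fin h → MulAut X₀) × Fin (Kb + 1)) × ((S → Subgroup X₀) × Subgroup X₀)) ×
        ((S → Bool) × Bool)
      have hDf : Finite D := inferInstance
      have hFt : Fintype D := Fintype.ofFinite _
      refine ⟨univ.image (fun f : D =>
        VO X₀ S f.1.1.1 f.1.1.2.val (fun p => if h : p ∈ S then f.1.2.1 ⟨p, h⟩ else ⊥)
          (fun p => if h : p ∈ S then f.2.1 ⟨p, h⟩ else true) f.1.2.2 f.2.2), ?_, ?_⟩
      · refine card_image_le.trans ?_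
        rw [card_univ, ← Nat.card_eq_fintype_card]
        have e1 : Nat.card D = Nat.card (MulAut X₀) ^ h * (Kb + 1) *
            (Nat.card (Subgroup X₀) ^ S.card * Nat.card (Subgroup X₀)) * (2 ^ S.card * 2) := by
          simp only [D, Nat.card_prod, Nat.card_fun, Nat.card_eq_fintype_card (α := Fin h),
            Nat.card_eq_fintype_card (α := Fin (Kb + 1)), Nat.card_eq_fintype_card (α := S),
            Nat.card_eq_fintype_card (α := Bool), Fintype.card_fin, Fintype.card_coe,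
            Fintype.card_bool]
        rw [e1, pow_succ (Kb ^ Nat.log 2 Kb), pow_succ 2]
        have h1 := card_sub_le hk₀
        have h2 := card_mulAut_le hk₀
        gcongr
      · intro Q iQ hf a c' K b L bL hk hs hc' hcQ
        obtain ⟨φ⟩ := hcode Q X₀ iQ iX₀ hf hf₀ hk hk₀ hs hs₀ (hcQ.trans hc₀.symm)
        rw [mem_image]
        refine ⟨(((fun j => tr φ (a j), ⟨c', by omega⟩),
          (fun p => (K p).map φ.toMonoidHom, L.map φ.toMonoidHom)), (fun p => b p, bL)),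
          mem_univ _, ?_⟩
        rw [VO_map φ S a c' K b L bL]
        refine VO_restrict S _ _ _ _ _ _ _ _ (fun p hp => ?_) (fun p hp => ?_)
        · simp only [dif_pos hp]
        · simp only [dif_pos hp]
    · refine ⟨∅, Nat.zero_le _, fun Q iQ hf a c' K b L bL hk hs hc' hcQ => ?_⟩
      exact absurd ⟨Q, iQ, hf, hk, hs, hcQ⟩ hex
  choose A hA1 hA2 using hc
  have hFt : Fintype T := Fintype.ofFinite T
  refine ⟨univ.biUnion A, ?_, ?_⟩
  · refine card_biUnion_le.trans ?_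
    calc ∑ c : T, (A c).card ≤ ∑ _c : T, (Kb ^ Nat.log 2 Kb) ^ h * (Kb + 1) *
          (Kb ^ Nat.log 2 Kb) ^ (S.card + 1) * 2 ^ (S.card + 1) :=
          sum_le_sum fun c _ => hA1 c
      _ = Nat.card T * ((Kb ^ Nat.log 2 Kb) ^ h * (Kb + 1) *
          (Kb ^ Nat.log 2 Kb) ^ (S.card + 1) * 2 ^ (S.card + 1)) := by
          rw [sum_const, card_univ, smul_eq_mul, Nat.card_eq_fintype_card]
      _ ≤ _ := Nat.mul_le_mul_right _ hTB
  · rintro v ⟨Q, iQ, hf, a, c', K, b, L, bL, hk, hs, hc', rfl⟩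
    rw [mem_coe, mem_biUnion]
    exact ⟨code Q iQ, mem_univ _, hA2 _ Q iQ hf a c' K b L bL hk hs hc' rfl⟩

end Pool.Agent.Helper72.LGI
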